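import Mathlib
import Pool.Agent.Q18.P.Avg

/-!
# Density one of the least central order in a family of quadratic twists, from Euler products on sparse windows

`𝒜` is the set of quadratic characters `χ'` of the problem (any index set `I` with a conductor norm
`cond : I → ℕ`, finitely many up to every bound), `F_i` the `L`-function of `π ⊗ χ'_i` without the Euler factors at a finite
set `S_i` of places, with the centre `1/2`; `ε ∈ {0, 1}` is the least order allowed by the root number. It is used that
`π` is tempered (e.g. a Hilbert modular form or an elliptic curve), that `F_i` is holomorphic of polynomial growth, and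
that the order at `1/2` is `≡ ε mod 2`. Put

`P_X(y) = ∏_{i : cond i ≤ X} ∏_{v ∉ S_i, q_v ≤ y} |∏_j (1 - α_{i,v,j} q_v^{-1/2})|`, `N(X) = #{i : cond i ≤ X}`.

Fix `0 < δ < 1`; the windows are `[Y^(1-δ), Y]`, and `U_X(κ, B)` at `Y` is the bound
`∫ max (log P_X(y) - κ log log y, 0) dy/y ≤ B log Y` over the window.

1. The Riemann hypothesis for all `F_i` and `(1/N(X)) ∑_{cond i ≤ X} (ord F_i - ε) → 0` hold together if and only if for
   every `η > 0` and all large `X` there is a `B` such that `U_X((ε + η) N(X), B)` holds for arbitrarily large `Y` (one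
   sequence of windows for each `X` and `η`, as sparse as we like); equivalently, for all large `Y`.
2. In this case the `i` with order `ε` have density one: the assertion of the problem.
3. For every real `a` and every `X`: if `U_X(a N(X), B)` holds for arbitrarily large `Y`, then no `F_i` with `cond i ≤ X` has
   a zero with `Re s > 1/2`, and the proportion of the `i` with `cond i ≤ X` whose order is not `ε` is at most
   `(a - ε)/2`. So `a < ε + 2` gives a positive proportion with the least order.
4. If the proportion of the `i` with `cond i ≤ X` whose order is not `ε` is greater than `ρ`, then for every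
   `a ≤ ε + 2ρ` and every `B` the bound `U_X(a N(X), B)` fails for ALL large `Y`.
-/

set_option autoImplicit false

namespace Pool.Agent.Results.MP_50bb2e_nt.DensityFromWindows

open Filter Topology Set Complex NumberField IsDedekindDomain MeasureTheory
open Pool.Agent.Q18.P (norm upTo NoZeros Order Holo MeanBound excess ord)

variable {K : Type} [Field K] [NumberField K] {I : Type}

/-- The family of the twists `π ⊗ χ'`, `χ' ∈ 𝒜`. -/
structure Twists (cond : I → ℕ) (S : I → Finset (HeightOneSpectrum (𝓞 K)))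
    (α : I → HeightOneSpectrum (𝓞 K) → Fin 2 → ℂ) (F : I → ℂ → ℂ) (ε : ℤ) : Prop where
  finite : ∀ X : ℕ, {i | cond i ≤ X}.Finite
  nonempty : Nonempty I
  range : ε = 0 ∨ ε = 1
  /-- temperedness -/
  abs : ∀ i v, v ∉ S i → ∀ j, ‖α i v j‖ = 1
  /-- holomorphic and of polynomial growth in a half plane `Re s > 1/2 - η` -/
  holo : ∀ i, Holo (1 / 2) (F i)
  euler : ∀ i, ∀ s : ℂ, 1 < s.re → HasProd (fun v : {v : HeightOneSpectrum (𝓞 K) // v ∉ S i} =>
    (∏ j, (1 - α i v.1 j * (norm v.1 : ℂ) ^ (-s)))⁻¹) (F i s)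
  /-- the functional equation -/
  parity : ∀ i (m : ℤ), Order (1 / 2) (F i) m → 2 ∣ m - ε

open scoped Classical in
/-- the `i` with `cond i ≤ X` -/
noncomputable def upToX (cond : I → ℕ) (X : ℕ) : Finset I :=
  if h : {i | cond i ≤ X}.Finite then h.toFinset else ∅

/-- `P_X(y)` -/
noncomputable def product (cond : I → ℕ) (S : I → Finset (HeightOneSpectrum (𝓞 K)))
    (α : I → HeightOneSpectrum (𝓞 K) → Fin 2 → ℂ) (X : ℕ) (y : ℝ) : ℝ :=
  ∏ i ∈ upToX cond X, ∏ᶠ v ∈ upTo (S i) y, ‖∏ j, (1 - α i v j * (norm v : ℂ) ^ (-(((1 / 2 : ℝ)) : ℂ)))‖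

/-- `N(X)` -/
noncomputable def total (cond : I → ℕ) (X : ℕ) : ℕ := (upToX cond X).card

open scoped Classical in
/-- the number of the `i` with `cond i ≤ X` and order `ε` at the centre -/
noncomputable def least (cond : I → ℕ) (F : I → ℂ → ℂ) (ε : ℤ) (X : ℕ) : ℕ :=
  ((upToX cond X).filter fun i => Order (1 / 2) (F i) ε).card

/-- the average of `ord F_i - ε` over the `i` with `cond i ≤ X` -/
noncomputable def average (cond : I → ℕ) (F : I → ℂ → ℂ) (ε : ℤ) (X : ℕ) : ℝ :=
  ((∑ i ∈ upToX cond X, (ord (1 / 2) (F i) - ε) : ℤ) : ℝ) / total cond X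

/-- **Density one of the least central order from Euler products on sparse windows.** -/
theorem result (K : Type) [Field K] [NumberField K] (I : Type) (cond : I → ℕ)
    (S : I → Finset (HeightOneSpectrum (𝓞 K))) (α : I → HeightOneSpectrum (𝓞 K) → Fin 2 → ℂ) (F : I → ℂ → ℂ) (ε : ℤ)
    (h : Twists cond S α F ε) (δ : ℝ) (h0 : 0 < δ) (h1 : δ < 1) :
    -- (1) the Riemann hypothesis and the average order
    List.TFAE [
      (∀ i, NoZeros (1 / 2) (F i)) ∧ Tendsto (average cond F ε) atTop (𝓝 0),
      ∀ η : ℝ, 0 < η → ∀ᶠ X in atTop, ∃ B : ℝ, ∃ᶠ Y : ℝ in atTop,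
        MeanBound δ (excess (product cond S α X) ((ε + η) * total cond X)) B Y,
      ∀ η : ℝ, 0 < η → ∀ᶠ X in atTop, ∃ B : ℝ, ∀ᶠ Y : ℝ in atTop,
        MeanBound δ (excess (product cond S α X) ((ε + η) * total cond X)) B Y] ∧
    -- (2) density one
    ((∀ η : ℝ, 0 < η → ∀ᶠ X in atTop, ∃ B : ℝ, ∃ᶠ Y : ℝ in atTop,
        MeanBound δ (excess (product cond S α X) ((ε + η) * total cond X)) B Y) →
      Tendsto (fun X => (least cond F ε X : ℝ) / total cond X) atTop (𝓝 1)) ∧
    -- (3) proportions
    (∀ (a B : ℝ) (X : ℕ), (∃ᶠ Y : ℝ in atTop, MeanBound δ (excess (product cond S α X) (a * total cond X)) B Y) →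
      (∀ i, cond i ≤ X → NoZeros (1 / 2) (F i)) ∧
      ((total cond X : ℝ) - least cond F ε X) ≤ (a - ε) / 2 * total cond X) ∧
    -- (4) in every window
    (∀ (a ρ B : ℝ) (X : ℕ), ρ * total cond X < (total cond X : ℝ) - least cond F ε X → a ≤ ε + 2 * ρ →
      ∀ᶠ Y : ℝ in atTop, ¬ MeanBound δ (excess (product cond S α X) (a * total cond X)) B Y) := by
  classical
  have hc : (1 / 2 : ℝ) = (((0 : ℕ) : ℝ) + 1) / 2 := by norm_num
  have hF : Pool.Agent.Q18.P.Family 0 (1 / 2) S (n := fun _ : I => 2) α F (fun _ => ε) :=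
    { bdd := fun i v hv j => by
        rw [h.abs i v hv j]
        simp
      holo := h.holo
      euler := fun i s hs => h.euler i s (by linarith)
      range := fun _ => h.range
      parity := h.parity }
  have e0 : ∀ X, product cond S α X = Pool.Agent.Q18.P.joint (1 / 2) S (n := fun _ : I => 2) α (upToX cond X) :=
    fun X => rfl
  have hmem : ∀ i X, i ∈ upToX cond X ↔ cond i ≤ X := by
    intro i X
    unfold upToX
    rw [dif_pos (h.finite X), Set.Finite.mem_toFinset]
    rfl
  have hT : ∀ i, ∀ᶠ X in atTop, i ∈ upToX cond X := fun i =>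
    (eventually_ge_atTop (cond i)).mono fun X hX => (hmem i X).2 hX
  have hsum : ∀ X, ((∑ _i ∈ upToX cond X, ε : ℤ) : ℝ) = ε * total cond X := by
    intro X
    rw [Finset.sum_const, nsmul_eq_mul, Int.cast_mul, Int.cast_natCast]
    unfold total
    ring
  have hκ : ∀ (η : ℝ) X, ((∑ _i ∈ upToX cond X, ε : ℤ) : ℝ) + η * ((upToX cond X).card : ℝ) =
      (ε + η) * total cond X := by
    intro η X
    rw [hsum]
    unfold total
    ring
  have hcount : ∀ X, ((Pool.Agent.Q18.P.nonmin (1 / 2) F (fun _ => ε) (upToX cond X)).card : ℝ) =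
      (total cond X : ℝ) - least cond F ε X := by
    intro X
    have h2 := Finset.card_filter_add_card_filter_not (s := upToX cond X) (fun i => Order (1 / 2) (F i) ε)
    unfold Pool.Agent.Q18.P.nonmin total least
    have h3 : (((upToX cond X).filter fun i => Order (1 / 2) (F i) ε).card : ℝ) +
        ((upToX cond X).filter fun i => ¬ Order (1 / 2) (F i) ε).card = (upToX cond X).card := by
      exact_mod_cast h2
    linarith
  have tf := hF.avg hc hT h0 h1
  simp only [hκ, ← e0] at tf
  have first : ∀ (a B : ℝ) (X : ℕ), (∃ᶠ Y : ℝ in atTop, MeanBound δ (excess (product cond S α X) (a * total cond X)) B Y) →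
      (∀ i, cond i ≤ X → NoZeros (1 / 2) (F i)) ∧
      ((total cond X : ℝ) - least cond F ε X) ≤ (a - ε) / 2 * total cond X := by
    intro a B X hB
    obtain ⟨h2, h3⟩ := hF.count hc (upToX cond X) h0 h1 hB
    refine ⟨fun i hi => h2 i ((hmem i X).2 hi), ?_⟩
    rw [hcount, hsum] at h3
    linarith
  refine ⟨tf, fun hB => ?_, first, fun a ρ B X hρ ha => ?_⟩
  · have t : ((∀ i, NoZeros (1 / 2) (F i)) ∧ Tendsto (average cond F ε) atTop (𝓝 0)) ↔
      ∀ η : ℝ, 0 < η → ∀ᶠ X in atTop, ∃ B : ℝ, ∃ᶠ Y : ℝ in atTop,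
        MeanBound δ (excess (product cond S α X) ((ε + η) * total cond X)) B Y := tf.out 0 1
    obtain ⟨hz, hl⟩ := t.2 hB
    obtain ⟨i₀⟩ := h.nonempty
    have hne : ∀ᶠ X in atTop, (upToX cond X).Nonempty := (hT i₀).mono fun X hX => ⟨i₀, hX⟩
    have h2 := hF.density hne hz hl
    simp only [hcount] at h2
    have h3 := (tendsto_const_nhds (x := (1 : ℝ))).sub h2
    rw [sub_zero] at h3
    refine h3.congr' ?_
    filter_upwards [hne] with X hX
    have h4 : ((total cond X : ℕ) : ℝ) ≠ 0 := by
      unfold total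
      exact_mod_cast (Finset.card_pos.2 hX).ne'
    have h5 : (((upToX cond X).card : ℕ) : ℝ) ≠ 0 := h4
    show 1 - ((total cond X : ℝ) - least cond F ε X) / ((upToX cond X).card : ℝ) = _
    rw [show ((upToX cond X).card : ℝ) = total cond X from rfl]
    field_simp
    ring
  · by_contra hne
    rw [Filter.not_eventually] at hne
    have hB : ∃ᶠ Y : ℝ in atTop, MeanBound δ (excess (product cond S α X) (a * total cond X)) B Y :=
      hne.mono fun Y hY => not_not.1 hY
    have h2 := (first a B X hB).2
    have h3 : (0 : ℝ) ≤ total cond X := Nat.cast_nonneg _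
    nlinarith

end Pool.Agent.Results.MP_50bb2e_nt.DensityFromWindows
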