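import Pool.Agent.Q6.NW.Few

/-!
# Nonvanishing twists of several newforms with few prime factors

`(f_1, ψ_1), …, (f_m, ψ_m)` are pairs of a newform of weight two and level `N_i` with trivial character,
with arbitrary (real algebraic) Fourier coefficients, and of a Dirichlet character `ψ_i` of squarefree
conductor prime to `N_i`, and `L(f_i ⊗ ψ_i, 1) ≠ 0` for all `i`.  `l` is a prime and `λ` a prime ideal of
the ring of all algebraic integers, `l ∈ λ`.  A prime `q` is admissible if it does not divide the `N_i` and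
the conductors of the `ψ_i`, and `a_q(f_i) - ψ_i(q) - ψ_i(q)⁻¹ ∉ λ` for all `i`.  A character `χ` is good if
`L(f_i ⊗ ψ_i χ ^ j, 1) ≠ 0` for all `i` and all `j`.

Theorem: there is a number `V` which depends only on the pairs, on `λ` and on `l ^ n` such that for every
group `H` of Dirichlet characters of order dividing `l ^ n` and of squarefree conductors composed of
admissible primes:

* among any `V + 1` elements of `H` there are `s ≥ 1` elements (so `s ≤ V + 1`) whose product is good;
* for every finite set `T` of more than `V` elements of `H` there is an `s`, `1 ≤ s ≤ V + 1`, such that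
  the product of the elements of `S` is good for at least `C(|T|, s) / ((V + 1) C(V + 1, s))` of the
  `C(|T|, s)` subsets `S` of `T` with `s` elements.

For quadratic characters (`l ^ n = 2`): if `χ_q` denotes the quadratic character of conductor `q` (`q`
admissible), then `T = {χ_q : q ≤ Y}` shows: there is a constant `c > 0` such that for all large `Y` there
are an `s ≤ V + 1` and at least `c (Y / log Y) ^ s` integers `D ≤ Y ^ s` with exactly `s` prime factors,
all of them admissible and at most `Y`, such that `L(f_i ⊗ ψ_i χ_D, 1) ≠ 0` for all `i` at once (if the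
admissible primes have positive density, as they have in general by Chebotarev's theorem).  If the `ψ_i` are
all the characters of an abelian field `F`, these are twists of the base change `π` of `f` to `F` by the
quadratic characters `χ_D ∘ N` of `F` which have central order `0`, as predicted by the conjecture of the
problem for almost all characters with sign `+1`.

The proof: the sums of the modular symbols of the twists by `ψ_i χ`, multiplied by units modulo a prime
ideal `P ∣ l` of a ring `R` which is finite over `ℤ`, are the values of a combination of characters of `H`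
with coefficients in a finite `R`-module `W`.  Iterated differences of order `V + 1` of such a function are
divisible by `P ^ (V + 1)`.  By Krull's intersection theorem the value at the origin is not in
`P ^ (V + 1) W` for some `V`; so in the iterated difference another term does not vanish.
-/

set_option autoImplicit false

open Complex UpperHalfPlane MatrixGroups CongruenceSubgroup NumberField IsDedekindDomain

namespace Pool.Agent.Results.MP_50bb2e_nt.FewPrimeFactors

/-- The `n`-th Fourier coefficient of `f`. -/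
noncomputable def coef {N : ℕ} (f : CuspForm (Gamma0 N : Subgroup (GL (Fin 2) ℝ)) 2) (n : ℕ) : ℂ :=
  (qExpansion 1 f).coeff n

/-- `f ∈ S_2(Γ₀(N))` is a newform, with its standard properties: the Fourier coefficients `c(n)` of `f`
are real with `c(1) = 1`, they satisfy the Hecke relations `c(mn) = c(m) c(n)` for coprime `m`, `n` and
`c(p^(j+2)) = c(p) c(p^(j+1)) - p c(p^j)` (without the last term if `p ∣ N`) and the bounds
`|c(p)| ≤ 2√p` for `p ∤ N`, `|c(p)| ≤ 1` for `p ∣ N`; `f` is an eigenfunction of the Fricke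
involution: `f(-1/(Nτ)) = -w N τ² f(τ)` with `w = ±1`. -/
structure IsNewform (N : ℕ) (f : CuspForm (Gamma0 N : Subgroup (GL (Fin 2) ℝ)) 2) : Prop where
  one : coef f 1 = 1
  real : ∀ n, (coef f n).im = 0
  mul : ∀ m n : ℕ, Nat.Coprime m n → coef f (m * n) = coef f m * coef f n
  pow : ∀ p j : ℕ, p.Prime → coef f (p ^ (j + 2)) = coef f p * coef f (p ^ (j + 1)) -
      (if p ∣ N then 0 else (p : ℂ) * coef f (p ^ j))
  good : ∀ p : ℕ, p.Prime → ¬ p ∣ N → ‖coef f p‖ ≤ 2 * Real.sqrt p
  bad : ∀ p : ℕ, p.Prime → p ∣ N → ‖coef f p‖ ≤ 1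
  fricke : ∃ w : ℝ, (w = 1 ∨ w = -1) ∧ ∀ τ τ' : ℍ, (τ' : ℂ) * ((N : ℂ) * (τ : ℂ)) = -1 →
    f τ' = -(w : ℂ) * (N : ℂ) * (τ : ℂ) ^ 2 * f τ

/-- The families `c = (c_q)` of characters `c_q` of the groups `(ℤ/q)ˣ`.  The family with `c_q = 1`
except for the primes `q` of a finite set stands for the Dirichlet character `χ_c = ∏ c_q` of
squarefree conductor; this is an isomorphism of groups. -/
abbrev Fam : Type := (q : ℕ) → (ZMod q)ˣ →* ℂˣ

open Classical in
/-- The set of the `q` with `c_q ≠ 1` (if it is finite). -/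
noncomputable def supp (c : Fam) : Finset ℕ :=
  if h : {q | c q ≠ 1}.Finite then h.toFinset else ∅

/-- The value `χ_c(m)`. -/
noncomputable def value (c : Fam) (m : ℕ) : ℂ :=
  ∏ q ∈ supp c, if h : m.Coprime q then (c q (ZMod.unitOfCoprime m h) : ℂ) else 0

/-- `L(f ⊗ χ_c, 1) ≠ 0`: there is an entire function `G` which for `Re s > 3/2` is the product over the
primes `p` of `(1 - χ(p) c(p) p^(-s) + χ(p)² p^(1-2s))⁻¹` (without the last term if `p ∣ N`),
`χ = χ_c`, and `G(1) ≠ 0`. -/
def TwistNonvanishing {N : ℕ} (f : CuspForm (Gamma0 N : Subgroup (GL (Fin 2) ℝ)) 2) (c : Fam) :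
    Prop :=
  ∃ G : ℂ → ℂ, Differentiable ℂ G ∧
    (∀ s : ℂ, (3 : ℝ) / 2 < s.re → HasProd (fun p : Nat.Primes =>
      (1 - value c p * coef f p * ((p : ℕ) : ℂ) ^ (-s) +
        value c p ^ 2 * (if (p : ℕ) ∣ N then 0 else ((p : ℕ) : ℂ) ^ (1 - 2 * s)))⁻¹) (G s)) ∧
    G 1 ≠ 0

/-- `ψ_i` is a Dirichlet character of squarefree conductor prime to the level `N_i`. -/
structure IsBase {m : ℕ} (N : Fin m → ℕ) (ψ : Fin m → Fam) : Prop where
  finite : ∀ i, {q | ψ i q ≠ 1}.Finite
  good : ∀ i q, ψ i q ≠ 1 → q.Prime ∧ ¬ q ∣ N i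

/-- `q` is a prime which does not divide the levels `N_i` and the conductors of the `ψ_i`, and
`c_i(q) - ψ_i(q) - ψ_i(q)⁻¹` is not in the prime ideal `lam` of the ring of all algebraic integers. -/
def Admissible {m : ℕ} {N : Fin m → ℕ}
    (f : (i : Fin m) → CuspForm (Gamma0 (N i) : Subgroup (GL (Fin 2) ℝ)) 2) (ψ : Fin m → Fam)
    (lam : Ideal (integralClosure ℤ ℂ)) (q : ℕ) : Prop :=
  q.Prime ∧ ∀ i, ¬ q ∣ N i ∧ ψ i q = 1 ∧
    ∀ x ∈ lam, (x : ℂ) ≠ coef (f i) q - value (ψ i) q - (value (ψ i) q)⁻¹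

/-- `H` is a group of Dirichlet characters of order dividing `l ^ n` and of squarefree conductors
composed of admissible primes. -/
structure IsCharGroup {m : ℕ} {N : Fin m → ℕ}
    (f : (i : Fin m) → CuspForm (Gamma0 (N i) : Subgroup (GL (Fin 2) ℝ)) 2) (ψ : Fin m → Fam)
    (lam : Ideal (integralClosure ℤ ℂ)) (l n : ℕ) (H : Subgroup Fam) : Prop where
  pow : ∀ c ∈ H, c ^ (l ^ n) = 1
  finite : ∀ c ∈ H, {q | c q ≠ 1}.Finite
  admissible : ∀ c ∈ H, ∀ q, c q ≠ 1 → Admissible f ψ lam q

/-- The character `χ_c` is good: `L(f_i ⊗ ψ_i χ_c ^ j, 1) ≠ 0` for all `i` and all `j`. -/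
def Good {m : ℕ} {N : Fin m → ℕ}
    (f : (i : Fin m) → CuspForm (Gamma0 (N i) : Subgroup (GL (Fin 2) ℝ)) 2) (ψ : Fin m → Fam)
    (c : Fam) : Prop :=
  ∀ (j : ℕ) (i : Fin m), TwistNonvanishing (f i) (ψ i * c ^ j)

theorem ez_eq {N : ℕ} (a : ℕ → ℂ) (z s : ℂ) (p : Nat.Primes) :
    Pool.Agent.Y18.NF.ez N a z s p = (1 - z * a p * ((p : ℕ) : ℂ) ^ (-s) +
      z ^ 2 * (if (p : ℕ) ∣ N then 0 else ((p : ℕ) : ℂ) ^ (1 - 2 * s)))⁻¹ := by
  unfold Pool.Agent.Y18.NF.ez
  have hp0 : ((p : ℕ) : ℂ) ≠ 0 := by exact_mod_cast p.2.ne_zero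
  have e : ((p : ℕ) : ℂ) ^ (1 - 2 * s) = (p : ℕ) * (((p : ℕ) : ℂ) ^ (-s)) ^ 2 := by
    rw [show (1 - 2 * s : ℂ) = 1 + ((-s) + (-s)) by ring, Complex.cpow_add _ _ hp0,
      Complex.cpow_add _ _ hp0, Complex.cpow_one]
    ring
  congr 2
  split_ifs with h
  · rw [zero_mul]
  · rw [e]

theorem twist_iff {N : ℕ} {f : CuspForm (Gamma0 N : Subgroup (GL (Fin 2) ℝ)) 2} {c : Fam} :
    TwistNonvanishing f c ↔ Pool.Agent.Q6.NW.TwNZ f c := by
  have key : ∀ (G : ℂ → ℂ) (s : ℂ), HasProd (fun p : Nat.Primes =>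
      (1 - value c p * coef f p * ((p : ℕ) : ℂ) ^ (-s) +
        value c p ^ 2 * (if (p : ℕ) ∣ N then 0 else ((p : ℕ) : ℂ) ^ (1 - 2 * s)))⁻¹) (G s) ↔
      HasProd (fun p : Nat.Primes => Pool.Agent.Y18.NF.ez N (Pool.Agent.Y18.BSD.co f)
        (Pool.Agent.Y18.LP.cvl c p) s p) (G s) := fun G s =>
    iff_of_eq (congrArg (fun g => HasProd g (G s)) (funext fun p => (ez_eq _ _ s p).symm))
  constructor
  · rintro ⟨G, h1, h2, h3⟩
    exact ⟨G, h1, fun s hs => (key G s).1 (h2 s hs), h3⟩
  · rintro ⟨G, h1, h2, h3⟩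
    exact ⟨G, h1, fun s hs => (key G s).2 (h2 s hs), h3⟩

theorem prod_aux {G : Type} [CommGroup G] (S : List G) [DecidableEq G] (h : S.Nodup) :
    ∏ c ∈ S.toFinset, c = S.prod := by
  have := List.prod_toFinset (fun c : G => c) h
  rw [this, List.map_id']

open Classical in
/-- **Theorem.** Let `(f_1, ψ_1), …, (f_m, ψ_m)` be pairs of a newform of weight two, level `N_i` and
trivial character and a Dirichlet character of squarefree conductor prime to `N_i` such that
`L(f_i ⊗ ψ_i, 1) ≠ 0`.  Let `l` be a prime, `n` an integer and `lam` a prime ideal of the ring of all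
algebraic integers which contains `l`.  There is a `V` such that for every group `H` of Dirichlet
characters of order dividing `l ^ n` and of squarefree conductors composed of primes `q` which do not
divide the `N_i` and the conductors of the `ψ_i`, with `a_q(f_i) - ψ_i(q) - ψ_i(q)⁻¹ ∉ lam`, and every
finite set `T` of more than `V` elements of `H`: there is a nonempty subset `S` of `T` with at most `V + 1`
elements such that the product of the elements of `S` is good; and there is an `s`, `1 ≤ s ≤ V + 1`, such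
that this holds for at least `C(|T|, s) / ((V + 1) C(V + 1, s))` of the subsets of `T` with `s`
elements. -/
theorem result (m : ℕ) (N : Fin m → ℕ) (hN : ∀ i, N i ≠ 0)
    (f : (i : Fin m) → CuspForm (Gamma0 (N i) : Subgroup (GL (Fin 2) ℝ)) 2)
    (hf : ∀ i, IsNewform (N i) (f i)) (ψ : Fin m → Fam) (hψ : IsBase N ψ)
    (h0 : ∀ i, TwistNonvanishing (f i) (ψ i))
    (l n : ℕ) (hl : l.Prime) (lam : Ideal (integralClosure ℤ ℂ)) (hlam : lam.IsPrime)
    (hll : (l : integralClosure ℤ ℂ) ∈ lam) :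
    ∃ V : ℕ, ∀ H : Subgroup Fam, IsCharGroup f ψ lam l n H →
      ∀ T : Finset Fam, (∀ c ∈ T, c ∈ H) → V < T.card →
        (∃ S ⊆ T, S.Nonempty ∧ S.card ≤ V + 1 ∧ Good f ψ (∏ c ∈ S, c)) ∧
        ∃ s : ℕ, 1 ≤ s ∧ s ≤ V + 1 ∧ T.card.choose s ≤ (V + 1) * (V + 1).choose s *
          ((T.powersetCard s).filter (fun S => Good f ψ (∏ c ∈ S, c))).card := by
  have : ∀ i, NeZero (N i) := fun i => ⟨hN i⟩
  obtain ⟨V, hV⟩ := Pool.Agent.Q6.NW.anyN (ι := Fin m) (N := N) (f := f) (ψ := ψ) (n := n)
    (fun i => ⟨(hf i).one, (hf i).real, (hf i).mul, (hf i).pow, (hf i).good, (hf i).bad,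
      (hf i).fricke⟩) ⟨hψ.finite, hψ.good⟩ (fun i => twist_iff.1 (h0 i)) hl hlam hll
  refine ⟨V, fun H hH T hT hTV => ?_⟩
  have key : ∀ U ⊆ T, U.card = V + 1 → ∃ S ⊆ U, S.Nonempty ∧ Good f ψ (∏ c ∈ S, c) := by
    intro U hU hUc
    obtain ⟨S, hS1, hS2, hS3⟩ := hV H ⟨hH.pow, hH.finite, fun c hc q hq =>
      hH.admissible c hc q hq⟩ U.toList (by rw [Finset.length_toList]; omega)
      (fun c hc => hT c (hU (Finset.mem_toList.1 hc)))
    have hnd : S.Nodup := hS1.nodup (Finset.nodup_toList U)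
    refine ⟨S.toFinset, fun c hc => ?_, ?_, fun j i => ?_⟩
    · exact Finset.mem_toList.1 (hS1.subset (List.mem_toFinset.1 hc))
    · obtain ⟨c, hc⟩ := List.exists_mem_of_ne_nil S hS2
      exact ⟨c, List.mem_toFinset.2 hc⟩
    · have e1 : ∏ c ∈ S.toFinset, c = S.prod := prod_aux (G := Fam) S hnd
      rw [e1]
      exact twist_iff.2 (hS3 j i)
  refine ⟨?_, Pool.Agent.Q6.NW.many_good T (V + 1) (fun S => Good f ψ (∏ c ∈ S, c)) hTV key⟩
  obtain ⟨U, hU1, hU2⟩ := Finset.exists_subset_card_eq (s := T) (n := V + 1) hTV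
  obtain ⟨S, hS1, hS2, hS3⟩ := key U hU1 hU2
  exact ⟨S, hS1.trans hU1, hS2, hU2 ▸ Finset.card_le_card hS1, hS3⟩

end Pool.Agent.Results.MP_50bb2e_nt.FewPrimeFactors
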