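import Pool.Agent.Q160.JX.Joint
import Pool.Agent.Q6.XM.Mq

/-!
# Central order zero for the same twist over several fields: the CM curve `X_0(49)`

`E^M : y² = x³ - 35 M² x - 98 M³` is the twist by `M` of `X_0(49)`, the elliptic curve with complex multiplication by the
integers of `ℚ(√-7)`. For `K = ℚ(√d_1, …, √d_n)` of degree `2ⁿ` let `π_{M,K}` be the automorphic representation of
`GL₂(𝔸_K)` of `E^M` over `K`, and for an integer `D` let `χ_{D,K}` be the quadratic character of `K(√D)/K`; the twist of `π_{M,K}` by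
`χ_{D,K}` belongs to the curve `E^{M D}` over `K`. The class consists of the squarefree `D ≥ 1` whose prime factors are
`≡ 1 mod 8` and split in `ℚ(√-7)`, or `≡ 5 mod 8` and inert, and the family of the `D ≡ 1 mod 8` in the class.

Let `G`, `G'` be disjoint finite sets of elements of the class. For exactly the proportion `c ^ #G (1 - c) ^ #G'`,
`c = ∏_{i ≥ 0} (1 - 2^{-(2i+1)}) = 0.4194...`, of the `D` in the family (and for at least `a X (log X)^(-3/4)` numbers `D ≤ X`) the twists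
by `D` of the curves `E^m` have rank `0` and `Ш[2] = 0` over `ℚ` for all `m ∈ G` and for no `m ∈ G'`. For each of these `D`
the twists of ALL the representations `π_{M,K}` such that the `2ⁿ` numbers `M ∏_{i ∈ T} d_i` belong to `G` up to squares have
central order `0`, and the groups `E^{M D}(K)` are finite. So the same `D` can be used for all the fields `K` in a given
finite set (for instance for all the subfields of one of them) and all the representations of a given finite set.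
-/

set_option autoImplicit false

open Finset Filter NumberField IsDedekindDomain

namespace Pool.Agent.Results.MP_50bb2e_nt.SeveralFieldsX049

/-- The twist `E^M : y² = x³ - 35 M² x - 98 M³` of `X_0(49)` over the field `F`. -/
def short (M : ℤ) (F : Type) [Field F] : WeierstrassCurve F :=
  { a₁ := 0, a₂ := 0, a₃ := 0, a₄ := ((-35 * M ^ 2 : ℤ) : F), a₆ := ((-98 * M ^ 3 : ℤ) : F) }

/-- the number `q_v` of elements of the residue field of a finite place `v` of `K` -/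
noncomputable def qv (K : Type) [Field K] (v : HeightOneSpectrum (𝓞 K)) : ℕ :=
  Nat.card (𝓞 K ⧸ v.asIdeal)

/-- `a_v = q_v + 1 - #E^M(k_v)`, that is `q_v` minus the number of the affine points modulo `v` -/
noncomputable def av (K : Type) [Field K] (M : ℤ) (v : HeightOneSpectrum (𝓞 K)) : ℤ :=
  (qv K v : ℤ) - Nat.card {z : (𝓞 K ⧸ v.asIdeal) × (𝓞 K ⧸ v.asIdeal) //
    z.2 ^ 2 = z.1 ^ 3 + ((-35 * M ^ 2 : ℤ) : 𝓞 K ⧸ v.asIdeal) * z.1 +
      ((-98 * M ^ 3 : ℤ) : 𝓞 K ⧸ v.asIdeal)}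

open Classical in
/-- `F` is entire and is, for `Re s > 3/2`, the `L`-function of `E^M` over `K` (that is `L(s - 1/2, π_{M,K})`) without
the Euler factors at the places `v ∣ 14 M m` -/
def IsL (K : Type) [Field K] [NumberField K] (M m : ℤ) (F : ℂ → ℂ) : Prop :=
  Differentiable ℂ F ∧ ∀ s : ℂ, (3 : ℝ) / 2 < s.re →
    HasProd (fun v : HeightOneSpectrum (𝓞 K) =>
      if ((14 * M * m : ℤ) : 𝓞 K) ∈ v.asIdeal then 1 else
        (1 - (av K M v : ℂ) * (qv K v : ℂ) ^ (-s) + (qv K v : ℂ) ^ (1 - 2 * s))⁻¹) (F s)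

/-- the central order of `π_{M,K}` is `0` -/
def OrderZero (K : Type) [Field K] [NumberField K] (M m : ℤ) : Prop :=
  (∃ F : ℂ → ℂ, IsL K M m F) ∧ ∀ F : ℂ → ℂ, IsL K M m F → F 1 ≠ 0

/-- `E^M(ℚ)` is finite and `Ш(E^M/ℚ)` has no element of order two -/
def RankZeroShaTwo (M : ℤ) : Prop :=
  Finite (short M ℚ).toAffine.Point ∧
    ∀ x : Pool.Agent.TH841.SH.D.Sha (short M ℚ), 2 • x = 0 → x = 0

/-- `d_1, …, d_n` are independent modulo squares: `ℚ(√d_1, …, √d_n)` has degree `2ⁿ` -/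
def Independent {n : ℕ} (d : Fin n → ℤ) : Prop :=
  ∀ T : Finset (Fin n), T.Nonempty → ¬ IsSquare (∏ i ∈ T, d i)

/-- `K = ℚ(√d_1, …, √d_n)` -/
def IsMultiquadratic {n : ℕ} (d : Fin n → ℤ) (K : Type) [Field K] [NumberField K] : Prop :=
  ∃ x : Fin n → K, (∀ i, x i ^ 2 = (d i : K)) ∧ IntermediateField.adjoin ℚ (Set.range x) = ⊤

/-- the class: `D` is squarefree, its prime factors are `1` modulo `8` and split in `ℚ(√-7)`, or `5`
modulo `8` and inert in `ℚ(√-7)` -/
def Class (D : ℕ) : Prop := Squarefree D ∧ ∀ p : ℕ, p.Prime → p ∣ D →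
  (p % 8 = 1 ∧ (p % 7 = 1 ∨ p % 7 = 2 ∨ p % 7 = 4)) ∨
  (p % 8 = 5 ∧ (p % 7 = 3 ∨ p % 7 = 5 ∨ p % 7 = 6))

/-- the family: the numbers of the class which are `1` modulo `8` -/
def Family (D : ℕ) : Prop := Class D ∧ D % 8 = 1

/-- the squarefree part of the product of two squarefree numbers -/
def star (m D : ℕ) : ℕ := m * D / (Nat.gcd m D) ^ 2

open Classical in
/-- the number of the `D ≤ X` in the family with the property `Q` -/
noncomputable def count (Q : ℕ → Prop) (X : ℕ) : ℕ := ((Icc 1 X).filter fun D => Family D ∧ Q D).card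

/-- For all `M` and all `K = ℚ(√d_1, …, √d_n)` of degree `2ⁿ` such that for all `T` the number `M ∏_{i ∈ T} d_i` is, up to
squares, in `G`: the twist by the quadratic character of `K(√D)/K` of `π_{M,K}` has central order `0`, and `E^{M D}(K)` is
finite. -/
def AllZero (G : Finset ℕ) (D : ℕ) : Prop :=
  ∀ (n : ℕ) (M : ℤ) (d : Fin n → ℤ), Independent d →
    (∀ T : Finset (Fin n), ∃ m ∈ G, ∃ k : ℤ, k ≠ 0 ∧ M * ∏ i ∈ T, d i = m * k ^ 2) →
    ∀ (K : Type) [Field K] [NumberField K], IsMultiquadratic d K →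
      OrderZero K (M * D) (∏ i, d i) ∧ Finite (short (M * D) K).toAffine.Point

section proof

open Q6.XK Q6.XM

lemma triv_iff' (D : ℤ) : RankZeroShaTwo D ↔ Triv D := by
  unfold RankZeroShaTwo Triv
  refine and_congr Iff.rfl (forall_congr' fun x => ?_)
  rw [two_nsmul]
  rfl

lemma isL_iff {K : Type} [Field K] [NumberField K] {M m : ℤ} (F : ℂ → ℂ) :
    IsL K M m F ↔ Pool.Agent.Y19.QT.IsLFunK K (-35 * M ^ 2) (-98 * M ^ 3) m F := by
  classical
  have key : ∀ v : HeightOneSpectrum (𝓞 K), ((14 * M * m : ℤ) : 𝓞 K) ∈ v.asIdeal ↔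
      ((2 * (4 * (-35 * M ^ 2) ^ 3 + 27 * (-98 * M ^ 3) ^ 2) * m : ℤ) : 𝓞 K) ∈ v.asIdeal := by
    intro v
    have : v.asIdeal.IsPrime := v.isPrime
    constructor
    · intro h1
      have e : ((2 * (4 * (-35 * M ^ 2) ^ 3 + 27 * (-98 * M ^ 3) ^ 2) * m : ℤ) : 𝓞 K) =
          ((12544 * M ^ 5 : ℤ) : 𝓞 K) * ((14 * M * m : ℤ) : 𝓞 K) := by
        rw [← Int.cast_mul]
        congr 1
        ring
      rw [e]
      exact Ideal.mul_mem_left _ _ h1
    · intro h1
      refine Ideal.IsPrime.mem_of_pow_mem this 9 ?_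
      have e : ((14 * M * m : ℤ) : 𝓞 K) ^ 9 =
          ((117649 * M ^ 3 * m ^ 8 : ℤ) : 𝓞 K) *
            ((2 * (4 * (-35 * M ^ 2) ^ 3 + 27 * (-98 * M ^ 3) ^ 2) * m : ℤ) : 𝓞 K) := by
        rw [← Int.cast_mul, ← Int.cast_pow]
        congr 1
        ring
      rw [e]
      exact Ideal.mul_mem_left _ _ h1
  unfold IsL Pool.Agent.Y19.QT.IsLFunK
  simp only [key]
  rfl

theorem isL_unique {K : Type} [Field K] [NumberField K] {M m : ℤ} {F G : ℂ → ℂ} (hF : IsL K M m F)
    (hG : IsL K M m G) : F = G := by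
  have hF' : AnalyticOnNhd ℂ F Set.univ := fun z _ => hF.1.analyticAt z
  have hG' : AnalyticOnNhd ℂ G Set.univ := fun z _ => hG.1.analyticAt z
  refine hF'.eq_of_eventuallyEq hG' (z₀ := 2) ?_
  have hmem : {s : ℂ | (3 : ℝ) / 2 < s.re} ∈ nhds (2 : ℂ) :=
    (isOpen_lt continuous_const Complex.continuous_re).mem_nhds (by
      show (3 : ℝ) / 2 < (2 : ℂ).re
      norm_num)
  filter_upwards [hmem] with s hs
  exact (hF.2 s hs).unique (hG.2 s hs)

/-- from `ℚ` to the fields `K` -/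
theorem allZero {G : Finset ℕ} (hG : ∀ m ∈ G, Class m) {D : ℕ} (hD : Class D)
    (h : ∀ m ∈ G, RankZeroShaTwo (star m D)) : AllZero G D := by
  rintro n M d hd hT K _ _ ⟨x, hx, hK⟩
  have hGO : GO d (M * D) := by
    intro T
    obtain ⟨m, hm, k, hk, e⟩ := hT T
    obtain ⟨h1, h2⟩ := Pool.Agent.Q160.JX.star_class (hG m hm) hD
    have hB := Pool.Agent.Q160.JX.class_base h1
    have hg : Nat.gcd m D ≠ 0 := by
      intro h0
      exact hD.1.ne_zero (Nat.gcd_eq_zero_iff.1 h0).2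
    refine ⟨Pool.Agent.Q160.JX.star m D, Nat.gcd m D * k, hB,
      (triv_crit hB).1 ((triv_iff' _).1 (h m hm)), mul_ne_zero (by exact_mod_cast hg) hk, ?_⟩
    have h3 : (m : ℤ) * D = Pool.Agent.Q160.JX.star m D * (Nat.gcd m D) ^ 2 := by exact_mod_cast h2
    calc M * D * ∏ i ∈ T, d i = (M * ∏ i ∈ T, d i) * D := by ring
      _ = (m * D) * k ^ 2 := by rw [e]; ring
      _ = _ := by rw [h3]; ring
  obtain ⟨⟨F, h1, h2⟩, h3⟩ := field_inc hd hGO K x hx hK
  refine ⟨⟨⟨F, (isL_iff F).2 h1⟩, fun F' hF' => ?_⟩, h3⟩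
  rw [isL_unique hF' ((isL_iff F).2 h1)]
  exact h2

end proof

open Classical in
theorem count_congr {Q R : ℕ → Prop} (h : ∀ D, Family D → (Q D ↔ R D)) (X : ℕ) :
    count Q X = Pool.Agent.Q160.JX.count R X := by
  unfold count Pool.Agent.Q160.JX.count
  congr 1
  ext D
  rw [Finset.mem_filter, Finset.mem_filter]
  exact and_congr_right fun _ => and_congr_right fun hD => h D hD

/-- **Theorem.** -/
theorem result :
    (∀ m D : ℕ, Class m → Class D → Class (star m D) ∧ m * D = star m D * (Nat.gcd m D) ^ 2) ∧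
    (∀ (G : Finset ℕ) (D : ℕ), (∀ m ∈ G, Class m) → Class D → (∀ m ∈ G, RankZeroShaTwo (star m D)) →
      AllZero G D) ∧
    ∃ c : ℝ, 0.4194 < c ∧ c < 0.4195 ∧
      Tendsto (fun n : ℕ => ∏ i ∈ range n, (1 - (1 / 2 : ℝ) ^ (2 * i + 1))) atTop (nhds c) ∧
      ∀ G G' : Finset ℕ, (∀ m ∈ G, Class m) → (∀ m ∈ G', Class m) → Disjoint G G' →
        Tendsto (fun X : ℕ => (count (fun D => AllZero G D ∧ (∀ m ∈ G, RankZeroShaTwo (star m D)) ∧
            ∀ m ∈ G', ¬ RankZeroShaTwo (star m D)) X : ℝ) / (count (fun _ => True) X : ℝ))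
          atTop (nhds (c ^ G.card * (1 - c) ^ G'.card)) ∧
        ∃ (a : ℝ) (X₀ : ℕ), 0 < a ∧ ∀ X : ℕ, X₀ ≤ X → a * (X * (Real.log X) ^ (-(3 / 4) : ℝ)) ≤
          (count (fun D => AllZero G D ∧ (∀ m ∈ G, RankZeroShaTwo (star m D)) ∧
            ∀ m ∈ G', ¬ RankZeroShaTwo (star m D)) X : ℝ) := by
  classical
  obtain ⟨-, hc1, hc2, hT⟩ := Pool.Agent.Q160.JX.const
  refine ⟨fun m D hm hD => Pool.Agent.Q160.JX.star_class hm hD, fun G D hG hD h => allZero hG hD h,
    Pool.Agent.Y703.CQ.c2, hc1, hc2, hT, ?_⟩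
  intro G K hG hK hd
  obtain ⟨hlim, hlow⟩ := Pool.Agent.Q160.JX.main G K hG hK hd
  have e0 : ∀ X, count (fun _ => True) X = Pool.Agent.Q160.JX.count (fun _ => True) X := fun _ => rfl
  have e : ∀ X, count (fun D => AllZero G D ∧ (∀ m ∈ G, RankZeroShaTwo (star m D)) ∧
      ∀ m ∈ K, ¬ RankZeroShaTwo (star m D)) X =
      Pool.Agent.Q160.JX.count (fun D => (∀ m ∈ G, Q6.XK.Triv (Pool.Agent.Q160.JX.star m D : ℤ)) ∧
        ∀ m ∈ K, ¬ Q6.XK.Triv (Pool.Agent.Q160.JX.star m D : ℤ)) X := by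
    intro X
    refine count_congr (fun D hD => ?_) X
    have h1 : (∀ m ∈ G, RankZeroShaTwo (star m D)) ↔
        ∀ m ∈ G, Q6.XK.Triv (Pool.Agent.Q160.JX.star m D : ℤ) :=
      forall_congr' fun m => forall_congr' fun hm => triv_iff' _
    have h2 : (∀ m ∈ K, ¬ RankZeroShaTwo (star m D)) ↔
        ∀ m ∈ K, ¬ Q6.XK.Triv (Pool.Agent.Q160.JX.star m D : ℤ) :=
      forall_congr' fun m => forall_congr' fun hm => not_congr (triv_iff' _)
    rw [← h1, ← h2]
    exact ⟨fun h => h.2, fun h => ⟨allZero hG hD.1 h.1, h⟩⟩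
  simp only [e, e0]
  exact ⟨hlim, hlow⟩

end Pool.Agent.Results.MP_50bb2e_nt.SeveralFieldsX049
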