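import Pool.Agent.Q7.JF.Fld

/-!
# The same quadratic character for two newforms over several multiquadratic fields

`E^M : y² = x³ + 5805 M² x - 285714 M³` and `A^M : y² = x³ - 35 M² x - 98 M³` are the quadratic twists by `M` of
`X_0(14)` and of `X_0(49)`. For a number field `F` let `π_{M,F}` and `π'_{M,F}` be the automorphic representations of
`GL₂(𝔸_F)` of `E^M` and of `A^M` over `F`: the twists by the quadratic character of `F(√M)/F` of the base changes
to `F` of the newforms of level `14` (not dihedral) and of level `49` (dihedral).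

The family consists of the squarefree `D ≥ 1`, `D ≡ 1 mod 8`, whose prime factors are `≡ 1 mod 8` and split in
`ℚ(√-7)` or `≡ 5 mod 8` and inert, and the class of the same numbers with `D ≡ 1` or `5 mod 8`. The quadratic
characters `χ_D` of `ℚ(√D)/ℚ`, `D` in the family, are trivial at `2`, `7` and `∞`.

Let `F_i = ℚ(√d_{i,1}, …, √d_{i,n_i})`, `i ≤ r`, be multiquadratic fields of degree `2 ^ n_i`, generated by square
roots of numbers `d_{i,j}` which are in the family up to squares, `M_i` such numbers, and let `F'_i`, `i ≤ r'`, be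
multiquadratic fields of degree `2 ^ n'_i`, generated by square roots of numbers which are up to squares in the
class, `M'_i` such numbers. For at least the proportion `c ^ (∑ 2 ^ n_i + ∑ 2 ^ n'_i)`,
`c = ∏_{i ≥ 0} (1 - 2^{-(2i+1)}) = 0.4194...`, of the `D` in the family ALL the `L`-functions
`L(s, π_{M_i,F_i} ⊗ χ_D)`, `i ≤ r`, and `L(s, π'_{M'_i,F'_i} ⊗ χ_D)`, `i ≤ r'`, are entire and have central order `0`, for
the same `χ_D` (composed with the norms).

The proof uses 2-descent for both curves, the values of the `L`-functions of the twists modulo `2`, and the joint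
law for several diagonals (`Pool.Agent.Q7.JF`), with the separation of the diagonals of the two curves by
Chebotarev's theorem.
-/

set_option autoImplicit false

open Finset Filter NumberField IsDedekindDomain

namespace Pool.Agent.Results.MP_50bb2e_nt.TwoForms

/-- the class: `D` is squarefree, its prime factors are `1` modulo `8` and split in `ℚ(√-7)`, or `5`
modulo `8` and inert in `ℚ(√-7)` -/
def Class (D : ℕ) : Prop := Squarefree D ∧ ∀ p : ℕ, p.Prime → p ∣ D →
  (p % 8 = 1 ∧ (p % 7 = 1 ∨ p % 7 = 2 ∨ p % 7 = 4)) ∨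
  (p % 8 = 5 ∧ (p % 7 = 3 ∨ p % 7 = 5 ∨ p % 7 = 6))

/-- the family: the numbers of the class which are `1` modulo `8` -/
def Family (D : ℕ) : Prop := Class D ∧ D % 8 = 1

/-- `N` has the property `P` up to a nonzero square -/
def UpToSquares (P : ℕ → Prop) (N : ℤ) : Prop := ∃ (D : ℕ) (k : ℤ), P D ∧ k ≠ 0 ∧ N = D * k ^ 2

/-- `d_1, …, d_n` are independent modulo squares -/
def Independent {n : ℕ} (d : Fin n → ℤ) : Prop :=
  ∀ T : Finset (Fin n), T.Nonempty → ¬ IsSquare (∏ i ∈ T, d i)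

/-- `F = ℚ(√d_1, …, √d_n)` -/
def IsMultiquadratic {n : ℕ} (d : Fin n → ℤ) (F : Type) [Field F] [NumberField F] : Prop :=
  ∃ x : Fin n → F, (∀ i, x i ^ 2 = (d i : F)) ∧ IntermediateField.adjoin ℚ (Set.range x) = ⊤

/-- the number `q_v` of elements of the residue field of a finite place `v` of `F` -/
noncomputable def qv (F : Type) [Field F] (v : HeightOneSpectrum (𝓞 F)) : ℕ :=
  Nat.card (𝓞 F ⧸ v.asIdeal)

/-- `a_v`, that is `q_v` minus the number of affine points of `y² = x³ + a x + b` modulo `v` -/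
noncomputable def av (F : Type) [Field F] (a b : ℤ) (v : HeightOneSpectrum (𝓞 F)) : ℤ :=
  (qv F v : ℤ) - Nat.card {z : (𝓞 F ⧸ v.asIdeal) × (𝓞 F ⧸ v.asIdeal) //
    z.2 ^ 2 = z.1 ^ 3 + (a : 𝓞 F ⧸ v.asIdeal) * z.1 + (b : 𝓞 F ⧸ v.asIdeal)}

open Classical in
/-- `L` is entire and is, for `Re s > 3/2`, the `L`-function of `y² = x³ + a x + b` over `F` without the
Euler factors at the places `v ∣ 2 (4 a³ + 27 b²) m` -/
def IsL (F : Type) [Field F] (a b m : ℤ) (L : ℂ → ℂ) : Prop :=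
  Differentiable ℂ L ∧ ∀ s : ℂ, (3 : ℝ) / 2 < s.re →
    HasProd (fun v : HeightOneSpectrum (𝓞 F) =>
      if ((2 * (4 * a ^ 3 + 27 * b ^ 2) * m : ℤ) : 𝓞 F) ∈ v.asIdeal then 1 else
        (1 - (av F a b v : ℂ) * (qv F v : ℂ) ^ (-s) + (qv F v : ℂ) ^ (1 - 2 * s))⁻¹) (L s)

/-- the `L`-function of `y² = x³ + a x + b` over `F` is entire and not zero at the centre `s = 1` -/
def OrderZero (F : Type) [Field F] (a b m : ℤ) : Prop :=
  (∃ L : ℂ → ℂ, IsL F a b m L) ∧ ∀ L : ℂ → ℂ, IsL F a b m L → L 1 ≠ 0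

/-- the central order of `E^M` over `F` is `0`, `E = X_0(14)` -/
def Zero14 (F : Type) [Field F] (M m : ℤ) : Prop := OrderZero F (5805 * M ^ 2) (-285714 * M ^ 3) m

/-- the central order of `A^M` over `F` is `0`, `A = X_0(49)` -/
def Zero49 (F : Type) [Field F] (M m : ℤ) : Prop := OrderZero F (-35 * M ^ 2) (-98 * M ^ 3) m

open Classical in
/-- the number of the `D ≤ X` in the family with the property `Q` -/
noncomputable def count (Q : ℕ → Prop) (X : ℕ) : ℕ := ((Icc 1 X).filter fun D => Family D ∧ Q D).card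

theorem fam_iff (D : ℕ) : Family D ↔ Q6.XK.Fam D := (Q7.JF.fam_cls D).symm

open Classical in
theorem count_eq (Q : ℕ → Prop) (X : ℕ) : count Q X = Q7.JF.cnt Q X := by
  unfold count Q7.JF.cnt
  refine congrArg Finset.card (Finset.ext fun D => ?_)
  refine (Finset.mem_filter).trans (Iff.trans ?_ (Finset.mem_filter).symm)
  rw [← fam_iff]

theorem order_of {F : Type} [Field F] {a b m : ℤ}
    (h : ∃ L : ℂ → ℂ, Y19.QT.IsLFunK F a b m L ∧ L 1 ≠ 0) : OrderZero F a b m := by
  obtain ⟨L, hL, hL1⟩ := h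
  exact ⟨⟨L, hL⟩, fun G hG => by rw [Y687.MQ.isLFunK_unique hG hL]; exact hL1⟩

/-- **Central order zero for two newforms over several fields, twisted by the same character.** -/
theorem result : ∃ c : ℝ, 0.4194 < c ∧ c < 0.4195 ∧
    Tendsto (fun n : ℕ => ∏ i ∈ range n, (1 - (1 / 2 : ℝ) ^ (2 * i + 1))) atTop (nhds c) ∧
    ∀ (r r' : ℕ) (n : Fin r → ℕ) (n' : Fin r' → ℕ) (M : Fin r → ℤ) (M' : Fin r' → ℤ)
      (d : (i : Fin r) → Fin (n i) → ℤ) (d' : (i : Fin r') → Fin (n' i) → ℤ),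
      (∀ i, UpToSquares Family (M i)) → (∀ i j, UpToSquares Family (d i j)) →
      (∀ i, UpToSquares Class (M' i)) → (∀ i j, UpToSquares Class (d' i j)) →
      (∀ i, Independent (d i)) → (∀ i, Independent (d' i)) →
      ∀ (F : Fin r → Type) [∀ i, Field (F i)] [∀ i, NumberField (F i)]
        (F' : Fin r' → Type) [∀ i, Field (F' i)] [∀ i, NumberField (F' i)],
      (∀ i, IsMultiquadratic (d i) (F i)) → (∀ i, IsMultiquadratic (d' i) (F' i)) →
      ∀ ε : ℝ, 0 < ε → ∃ X₀ : ℕ, ∀ X : ℕ, X₀ ≤ X →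
        0 < count (fun _ => True) X ∧
        (c ^ (∑ i, 2 ^ n i + ∑ i, 2 ^ n' i) - ε) * (count (fun _ => True) X : ℝ) ≤
          (count (fun D => (∀ i, Zero14 (F i) (M i * D) (∏ j, d i j)) ∧
            ∀ i, Zero49 (F' i) (M' i * D) (∏ j, d' i j)) X : ℝ) := by
  obtain ⟨-, hc1, hc2, hT⟩ := Q160.JX.const
  refine ⟨Y703.CQ.c2, hc1, hc2, hT, ?_⟩
  intro r r' n n' M M' d d' hM hd hM' hd' hI hI' F _ _ F' _ _ hF hF' ε hε
  have hfam : (fun D => Q6.XK.Fam D) = Family := funext fun D => propext (fam_iff D).symm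
  have h14 : ∀ i, ∃ m : Finset (Fin (n i)) → ℕ, Function.Injective m ∧ ∀ T, Q6.XK.Fam (m T) ∧
      ∃ k : ℤ, k ≠ 0 ∧ M i * ∏ j ∈ T, d i j = m T * k ^ 2 := by
    intro i
    have conv : ∀ z : ℤ, UpToSquares Family z → Q7.JF.Sq Q6.XK.Fam z := by
      rintro z ⟨D, k, hD, hk, hz⟩
      exact ⟨D, k, (fam_iff D).1 hD, hk, hz⟩
    exact Q7.JF.exists_m Q7.JF.closed_fam (hI i) (fun j => conv _ (hd i j)) (conv _ (hM i))
  have h49 : ∀ i, ∃ m : Finset (Fin (n' i)) → ℕ, Function.Injective m ∧ ∀ T, Q7.JF.Cls (m T) ∧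
      ∃ k : ℤ, k ≠ 0 ∧ M' i * ∏ j ∈ T, d' i j = m T * k ^ 2 := by
    intro i
    exact Q7.JF.exists_m Q7.JF.closed_cls (hI' i) (fun j => hd' i j) (hM' i)
  choose m hminj hm using h14
  choose m' hminj' hm' using h49
  simp only [count_eq]
  refine Q7.JF.fields_low r r' n n' m m' (fun i T => (hm i T).1) (fun i T => (hm' i T).1) _ ?_ ε hε
  intro D hD k1 k2
  refine ⟨fun i => ?_, fun i => ?_⟩
  · obtain ⟨x, hx, hK⟩ := hF i
    exact order_of (Q7.JF.fields14 (hI i) (hm i) hD (k1 i) (F i) x hx hK).1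
  · obtain ⟨x, hx, hK⟩ := hF' i
    exact order_of (Q7.JF.fields49 (hI' i) (hm' i) ((Q7.JF.fam_cls D).1 hD).1 (k2 i) (F' i) x hx hK).1

end Pool.Agent.Results.MP_50bb2e_nt.TwoForms
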